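import Pool.Agent.MP_eb915b_lc.Few.Defs

/-! Strips in a zero-one matrix made of bands of diagonals. -/

set_option autoImplicit false

namespace Pool.Agent.MP_eb915b_lc.Few

open Finset

/-- column up, row down -/
def L1 (p q : ℕ × ℕ) : Prop := p.1 < q.1 ∨ (p.1 = q.1 ∧ q.2 < p.2)

/-- row up, column down -/
def L2 (p q : ℕ × ℕ) : Prop := p.2 < q.2 ∨ (p.2 = q.2 ∧ q.1 < p.1)

/-- strictly comparable points -/
def Cmp (p q : ℕ × ℕ) : Prop := (p.1 < q.1 ∧ p.2 < q.2) ∨ (q.1 < p.1 ∧ q.2 < p.2)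

theorem exists_label {α : Type} {R : α → α → Prop} (hR : ∀ x y, R x y → ¬ R y x)
    (P : List (List α)) (h : P.flatten.Pairwise R) :
    ∃ β : α → ℕ, (∀ x ∈ P.flatten, β x < P.length) ∧
      (∀ x ∈ P.flatten, ∀ y ∈ P.flatten, R x y → β x ≤ β y) ∧
      ∀ x ∈ P.flatten, ∀ y ∈ P.flatten, β x = β y → ∃ s ∈ P, x ∈ s ∧ y ∈ s := by
  classical
  induction P with
  | nil => exact ⟨fun _ => 0, by simp, by simp, by simp⟩
  | cons s P ih =>
    rw [List.flatten_cons, List.pairwise_append] at h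
    obtain ⟨β, h1, h2, h3⟩ := ih h.2.1
    simp only [List.flatten_cons, List.mem_append, List.length_cons]
    refine ⟨fun x => if x ∈ s then 0 else β x + 1, fun x hx => ?_, fun x hx y hy hxy => ?_,
      fun x hx y hy e => ?_⟩
    · dsimp only
      split_ifs with c
      · omega
      · have := h1 x (hx.resolve_left c)
        omega
    · dsimp only
      split_ifs with c d d
      · omega
      · omega
      · exact (hR _ _ hxy (h.2.2 y d x (hx.resolve_left c))).elim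
      · have := h2 x (hx.resolve_left c) y (hy.resolve_left d) hxy
        omega
    · dsimp only at e
      split_ifs at e with c d d
      · exact ⟨s, List.mem_cons_self, c, d⟩
      · obtain ⟨s', hs, h4⟩ := h3 x (hx.resolve_left c) y (hy.resolve_left d) (by omega)
        exact ⟨s', List.mem_cons_of_mem _ hs, h4⟩

/-- a solution as a set of points with the positions of the strips in the two orders -/
structure Sol (Z : Finset (ℕ × ℕ)) (β γ : ℕ × ℕ → ℕ) (T : ℕ) : Prop where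
  b1 : ∀ z ∈ Z, β z < T
  b2 : ∀ x ∈ Z, ∀ y ∈ Z, L1 x y → β x ≤ β y
  b3 : ∀ x ∈ Z, ∀ y ∈ Z, β x = β y → x = y ∨ Cmp x y
  c1 : ∀ z ∈ Z, γ z < T
  c2 : ∀ x ∈ Z, ∀ y ∈ Z, L2 x y → γ x ≤ γ y
  c3 : ∀ x ∈ Z, ∀ y ∈ Z, γ x = γ y → x = y ∨ Cmp x y

theorem exists_sol {G₁ G₂ : List (ℕ × ℕ)} (h1 : G₁.Pairwise L1) (h2 : G₂.Pairwise L2) {m T : ℕ}
    (h : FewStrips G₁ G₂ m T) :
    ∃ Z β γ, Sol Z β γ T ∧ m ≤ Z.card ∧ ∀ z ∈ Z, z ∈ G₁ := by
  obtain ⟨P₁, P₂, s1, s2, hp, -, hm, hT⟩ := h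
  have p1 := h1.sublist s1
  have p2 := h2.sublist s2
  obtain ⟨β, b1, b2, b3⟩ := exists_label (fun x y a b => by unfold L1 at a b; omega) P₁ p1
  obtain ⟨γ, c1, c2, c3⟩ := exists_label (fun x y a b => by unfold L2 at a b; omega) P₂ p2
  have hs : ∀ s ∈ P₁, ∀ x ∈ s, ∀ y ∈ s, x = y ∨ Cmp x y := by
    intro s hs x hx y hy
    have a1 := (List.pairwise_flatten.1 p1).1 s hs
    have a2 := (List.pairwise_flatten.1 p2).1 s (hp.subset hs)
    have a3 : s.Pairwise Cmp := (a1.and a2).imp fun {a b} c => by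
      unfold L1 L2 at c
      unfold Cmp
      omega
    have : Std.Symm Cmp := ⟨fun _ _ c => Or.symm c⟩
    by_cases c : x = y
    · exact Or.inl c
    · exact Or.inr (List.Pairwise.forall a3 hx hy c)
  have hmem : ∀ z, z ∈ P₁.flatten → z ∈ P₂.flatten := fun z hz => hp.flatten.subset hz
  have hl := hp.length_eq
  have hnd : P₁.flatten.Nodup := p1.imp fun {a b} c e => by
    unfold L1 at c
    rw [e] at c
    omega
  refine ⟨P₁.flatten.toFinset, β, γ, ⟨?_, ?_, ?_, ?_, ?_, ?_⟩, ?_, ?_⟩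
  all_goals try simp only [List.mem_toFinset]
  · exact fun z hz => (b1 z hz).trans_le hT
  · exact b2
  · intro x hx y hy e
    obtain ⟨s, h3, h4, h5⟩ := b3 x hx y hy e
    exact hs s h3 x h4 y h5
  · exact fun z hz => (c1 z (hmem z hz)).trans_le (hl ▸ hT)
  · exact fun x hx y hy => c2 x (hmem x hx) y (hmem y hy)
  · intro x hx y hy e
    obtain ⟨s, h3, h4, h5⟩ := c3 x (hmem x hx) y (hmem y hy) e
    exact hs s (hp.symm.subset h3) x h4 y h5
  · rwa [List.toFinset_card_of_nodup hnd]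
  · exact fun z hz => s1.subset hz

theorem count_near {α : Type} {Z : Finset α} {col β : α → ℕ} {K T : ℕ} (hK : ∀ z ∈ Z, col z < K)
    (hβ : ∀ z ∈ Z, β z < T) (hinj : ∀ x ∈ Z, ∀ y ∈ Z, col x + β x = col y + β y → x = y)
    (hc : K ≤ Z.card) {c : ℕ} (h : c ≤ K) :
    (Z.filter fun z => col z < c).card ≤ c + T ∧ c ≤ (Z.filter fun z => col z < c).card + T := by
  have h1 : (Z.filter fun z => col z < c).card ≤ (range (c + T)).card :=
    card_le_card_of_injOn (fun z => col z + β z) (fun z hz => by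
      have h2 := mem_filter.1 (mem_coe.1 hz)
      have := hβ z h2.1
      exact mem_coe.2 (mem_range.2 (by dsimp only; omega)))
      fun x hx y hy e => hinj x (mem_filter.1 (mem_coe.1 hx)).1 y (mem_filter.1 (mem_coe.1 hy)).1 e
  have h2 : (Z.filter fun z => ¬ col z < c).card ≤ (Ico c (K + T)).card :=
    card_le_card_of_injOn (fun z => col z + β z) (fun z hz => by
      have h2 := mem_filter.1 (mem_coe.1 hz)
      have := hβ z h2.1
      have := hK z h2.1
      exact mem_coe.2 (mem_Ico.2 (by dsimp only; omega)))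
      fun x hx y hy e => hinj x (mem_filter.1 (mem_coe.1 hx)).1 y (mem_filter.1 (mem_coe.1 hy)).1 e
  have h3 := card_filter_add_card_filter_not (s := Z) fun z => col z < c
  rw [card_range] at h1
  rw [Nat.card_Ico] at h2
  omega

theorem Sol.inj1 {Z : Finset (ℕ × ℕ)} {β γ : ℕ × ℕ → ℕ} {T : ℕ} (h : Sol Z β γ T) :
    ∀ x ∈ Z, ∀ y ∈ Z, x.1 + β x = y.1 + β y → x = y := by
  intro x hx y hy e
  have a1 := h.b2 x hx y hy
  have a2 := h.b2 y hy x hx
  have a3 := h.b3 x hx y hy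
  unfold L1 at a1 a2
  unfold Cmp at a3
  rw [Prod.ext_iff] at a3 ⊢
  omega

theorem Sol.inj2 {Z : Finset (ℕ × ℕ)} {β γ : ℕ × ℕ → ℕ} {T : ℕ} (h : Sol Z β γ T) :
    ∀ x ∈ Z, ∀ y ∈ Z, x.2 + γ x = y.2 + γ y → x = y := by
  intro x hx y hy e
  have a1 := h.c2 x hx y hy
  have a2 := h.c2 y hy x hx
  have a3 := h.c3 x hx y hy
  unfold L2 at a1 a2
  unfold Cmp at a3
  rw [Prod.ext_iff] at a3 ⊢
  omega

/-- a long range of columns contains a point whose strip reaches far on both sides -/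
theorem Sol.long {Z : Finset (ℕ × ℕ)} {β γ : ℕ × ℕ → ℕ} {T K : ℕ} (h : Sol Z β γ T)
    (hK : ∀ z ∈ Z, z.1 < K) (hc : K ≤ Z.card) {A L : ℕ}
    (hA : A + (2 * T + 1) * (2 * T + 1 + L) ≤ K) :
    ∃ p ∈ Z, A ≤ p.1 ∧ p.1 < A + (2 * T + 1) * (2 * T + 1 + L) ∧
      ∀ z ∈ Z, z = p ∨ Cmp z p ∨ z.1 + L ≤ p.1 ∨ p.1 + L ≤ z.1 := by
  set Q := 2 * T + 1 + L with hQ
  have hw : ∀ j, ∃ x, j ≤ 2 * T → x ∈ Z ∧ A + j * Q ≤ x.1 ∧ x.1 < A + j * Q + (2 * T + 1) := by
    intro j
    by_cases hj : j ≤ 2 * T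
    · have e : (j + 1) * Q ≤ (2 * T + 1) * Q := Nat.mul_le_mul_right Q (by omega)
      rw [Nat.succ_mul] at e
      have a1 := (count_near hK h.b1 h.inj1 hc (c := A + j * Q) (by omega)).1
      have a2 := (count_near hK h.b1 h.inj1 hc (c := A + j * Q + (2 * T + 1)) (by omega)).2
      obtain ⟨x, h1, h2⟩ := exists_mem_notMem_of_card_lt_card
        (s := Z.filter fun z => z.1 < A + j * Q)
        (t := Z.filter fun z => z.1 < A + j * Q + (2 * T + 1)) (by omega)
      simp only [mem_filter, not_and, not_lt] at h1 h2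
      exact ⟨x, fun _ => ⟨h1.1, h2 h1.1, h1.2⟩⟩
    · exact ⟨(0, 0), fun c => (hj c).elim⟩
  choose x hx using hw
  have gap : ∀ j, j + 1 ≤ 2 * T → (x j).1 + L < (x (j + 1)).1 := fun j hj => by
    have a1 := hx j (by omega)
    have a2 := hx (j + 1) hj
    rw [Nat.succ_mul] at a2
    omega
  have mono : ∀ j, j + 1 ≤ 2 * T → β (x j) ≤ β (x (j + 1)) := fun j hj =>
    h.b2 _ (hx j (by omega)).1 _ (hx (j + 1) hj).1 (Or.inl (by have := gap j hj; omega))
  obtain ⟨j, hj, e⟩ : ∃ j, j < T ∧ β (x (2 * j + 1 + 1)) ≤ β (x (2 * j)) := by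
    by_contra c
    push Not at c
    have : ∀ j, j ≤ T → j ≤ β (x (2 * j)) := by
      intro j
      induction j with
      | zero => omega
      | succ j ih =>
        intro hj
        have a1 := c j (by omega)
        have a2 := ih (by omega)
        rw [show 2 * (j + 1) = 2 * j + 1 + 1 by ring]
        omega
    have a1 := this T le_rfl
    have a2 := h.b1 _ (hx (2 * T) le_rfl).1
    omega
  have m1 := mono (2 * j) (by omega)
  have m2 := mono (2 * j + 1) (by omega)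
  have g1 := gap (2 * j) (by omega)
  have g2 := gap (2 * j + 1) (by omega)
  obtain ⟨p1, p2, p3⟩ := hx (2 * j + 1) (by omega)
  have e' : (2 * j + 1 + 1) * Q ≤ (2 * T + 1) * Q := Nat.mul_le_mul_right Q (by omega)
  rw [Nat.succ_mul] at e'
  refine ⟨_, p1, by omega, by omega, fun z hz => ?_⟩
  have a1 := h.b3 z hz _ p1
  have a2 := h.b2 _ (hx (2 * j) (by omega)).1 z hz
  have a3 := h.b2 z hz _ (hx (2 * j + 1 + 1) (by omega)).1
  unfold L1 at a2 a3
  rcases lt_trichotomy (β z) (β (x (2 * j + 1))) with c | c | c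
  · exact Or.inr (Or.inr (Or.inl (by omega)))
  · exact (a1 c).imp id Or.inl
  · exact Or.inr (Or.inr (Or.inr (by omega)))

end Pool.Agent.MP_eb915b_lc.Few
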