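import Pool.Agent.MP_eb915b_lc.Few.A

/-! Regions of diagonals: what a solution with few strips determines, and the converse. -/

set_option autoImplicit false

namespace Pool.Agent.MP_eb915b_lc.Few

open Finset

/-- the point `z` lies on a diagonal of the region `i` -/
def Reg (W P : ℕ) (π : ℕ → ℕ) (D : ℕ → ℕ → ℕ → Prop) (i : ℕ) (z : ℕ × ℕ) : Prop :=
  i * W ≤ z.1 ∧ z.1 < (i + 1) * W + 2 * P ∧ ∃ a b, D i a b ∧ z.2 + i * W + b = z.1 + π i * W + a

theorem mul_step {i j : ℕ} (W : ℕ) (h : i < j) : i * W + W ≤ j * W := by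
  have := Nat.mul_le_mul_right W (Nat.succ_le_of_lt h)
  rwa [Nat.succ_mul] at this

theorem core {t W P T : ℕ} {π : ℕ → ℕ} {D : ℕ → ℕ → ℕ → Prop}
    (hinv : ∀ i < t, π (π i) = i) (hD : ∀ i a b, D i a b → a ≤ P ∧ b ≤ P)
    (hW : 6 * P + (2 * T + 1) * (2 * T + 1 + (2 * P + 1)) ≤ W)
    {Z : Finset (ℕ × ℕ)} {β γ : ℕ × ℕ → ℕ} (h : Sol Z β γ T)
    (hK : ∀ z ∈ Z, z.1 < t * W ∧ z.2 < t * W) (hc : t * W ≤ Z.card)
    (hZ : ∀ z ∈ Z, ∃ i < t, Reg W P π D i z) :
    ∃ X Y : ℕ → ℕ, ∀ i < t, X (i + 1) + Y (π i) = Y (π i + 1) + X i ∧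
      ∃ a b, D i a b ∧ Y (π i) + i * W + b ≤ X i + π i * W + a + 2 * T ∧
        X i + π i * W + a ≤ Y (π i) + i * W + b + 2 * T := by
  have hZ' : ∀ z, ∃ i, z ∈ Z → i < t ∧ Reg W P π D i z := fun z => by
    by_cases hz : z ∈ Z
    · obtain ⟨i, hi⟩ := hZ z hz
      exact ⟨i, fun _ => hi⟩
    · exact ⟨0, fun c => (hz c).elim⟩
  choose reg hreg using hZ'
  have hinj : ∀ i < t, ∀ j < t, π j = π i → j = i := fun i hi j hj e => by
    rw [← hinv i hi, ← e, hinv j hj]
  refine ⟨fun i => (Z.filter fun z => reg z < i).card,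
    fun j => (Z.filter fun z => π (reg z) < j).card, fun i hi => ⟨?_, ?_⟩⟩
  · simp only [card_filter, ← sum_add_distrib]
    refine sum_congr rfl fun z hz => ?_
    have a1 := hinj i hi _ (hreg z hz).1
    have a2 : reg z = i → π (reg z) = π i := fun e => by rw [e]
    split_ifs <;> omega
  · have b0 := mul_step W hi
    obtain ⟨p, hp, p1, p2, p3⟩ := h.long (fun z hz => (hK z hz).1) hc (A := i * W + 4 * P)
      (L := 2 * P + 1) (by omega)
    obtain ⟨q0, q1, q2, a, b, q3, q4⟩ := hreg p hp
    rw [Nat.succ_mul] at q2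
    have e : reg p = i := by
      rcases lt_trichotomy (reg p) i with c | c | c
      · have := mul_step W c
        omega
      · exact c
      · have := mul_step W c
        omega
    rw [e] at q1 q2 q3 q4
    obtain ⟨q5, q6⟩ := hD _ _ _ q3
    have key : (Z.filter fun z => z.2 < p.2).card + (Z.filter fun z => reg z < i).card =
        (Z.filter fun z => z.1 < p.1).card + (Z.filter fun z => π (reg z) < π i).card := by
      simp only [card_filter, ← sum_add_distrib]
      refine sum_congr rfl fun z hz => ?_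
      obtain ⟨r0, r1, r2, a', b', r3, r4⟩ := hreg z hz
      rw [Nat.succ_mul] at r2
      obtain ⟨r5, r6⟩ := hD _ _ _ r3
      by_cases c : reg z = i
      · rw [c] at r1 r2 r4 ⊢
        have := p3 z hz
        unfold Cmp at this
        rw [Prod.ext_iff] at this
        split_ifs <;> omega
      · have a1 := hinj i hi _ r0
        have a2 := @mul_step (reg z) i W
        have a3 := @mul_step i (reg z) W
        have a4 := @mul_step (π (reg z)) (π i) W
        have a5 := @mul_step (π i) (π (reg z)) W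
        split_ifs <;> omega
    have c1 := count_near (fun z hz => (hK z hz).1) h.b1 h.inj1 hc (c := p.1) (hK p hp).1.le
    have c2 := count_near (fun z hz => (hK z hz).2) h.c1 h.inj2 hc (c := p.2) (hK p hp).2.le
    exact ⟨a, b, q3, by dsimp only; omega, by dsimp only; omega⟩

theorem pairwise_cut {α : Type} {t W : ℕ} {f : ℕ → List α} {g : α → ℕ} {u : ℕ → ℕ}
    (hu : ∀ i, u i ≤ W) (h1 : ∀ i < t, (f i).Pairwise fun x y => g x < g y)
    (h2 : ∀ i < t, ∀ z ∈ f i, i * W + u i ≤ g z ∧ g z < i * W + W + u (i + 1)) :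
    ((List.range t).map f).flatten.Pairwise fun x y => g x < g y := by
  rw [List.pairwise_flatten]
  refine ⟨fun s hs => ?_, ?_⟩
  · obtain ⟨i, hi, rfl⟩ := List.mem_map.1 hs
    exact h1 i (List.mem_range.1 hi)
  · rw [List.pairwise_map]
    refine List.pairwise_lt_range.imp_of_mem fun {i j} hi hj h x hx y hy => ?_
    have a1 := (h2 i (List.mem_range.1 hi) x hx).2
    have a2 := (h2 j (List.mem_range.1 hj) y hy).1
    by_cases c : j = i + 1
    · rw [c, Nat.succ_mul] at a2
      omega
    · have a3 := mul_step W (show i + 1 < j by omega)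
      have a4 := hu (i + 1)
      rw [Nat.succ_mul] at a3
      omega

theorem sublist_of_pairwise {α : Type} {R : α → α → Prop} (hR : ∀ x y, R x y → ¬ R y x)
    {l G : List α} (h1 : l.Pairwise R) (h2 : G.Pairwise R) (h : ∀ z ∈ l, z ∈ G) :
    l.Sublist G := by
  have : Std.Antisymm R := ⟨fun a b h1 h2 => (hR a b h1 h2).elim⟩
  exact List.sublist_of_subperm_of_pairwise
    (List.subperm_of_subset (h1.imp fun {a b} c e => by subst e; exact hR a a c c) h) h1 h2

theorem complete {t W P : ℕ} {π : ℕ → ℕ} {D : ℕ → ℕ → ℕ → Prop} (hπ : ∀ i < t, π i < t)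
    (hinv : ∀ i < t, π (π i) = i) (hW : 2 * P + 2 ≤ W) {u v : ℕ → ℕ} (hu : ∀ i, u i ≤ 2 * P)
    (hv : ∀ i, v i ≤ 2 * P) (u0 : u 0 = 0) (ut : u t = 0) (vt : v t = 0)
    (hD : ∀ i < t, ∃ a b, D i a b ∧ v (π i) + b = u i + a ∧ v (π i + 1) + b = u (i + 1) + a)
    {G₁ G₂ : List (ℕ × ℕ)} (h1 : G₁.Pairwise L1) (h2 : G₂.Pairwise L2)
    (hm : ∀ z : ℕ × ℕ, z.1 < t * W → z.2 < t * W → (∃ i < t, Reg W P π D i z) →
      z ∈ G₁ ∧ z ∈ G₂) :
    FewStrips G₁ G₂ (t * W) t := by
  let seg : ℕ → List (ℕ × ℕ) := fun i => (List.range (W + u (i + 1) - u i)).map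
    fun x => (i * W + u i + x, π i * W + v (π i) + x)
  have hs : ∀ i < t, ∀ z ∈ seg i, (i * W + u i ≤ z.1 ∧ z.1 < i * W + W + u (i + 1)) ∧
      (π i * W + v (π i) ≤ z.2 ∧ z.2 < π i * W + W + v (π i + 1)) ∧ z ∈ G₁ ∧ z ∈ G₂ := by
    intro i hi z hz
    obtain ⟨x, hx, rfl⟩ := List.mem_map.1 hz
    rw [List.mem_range] at hx
    obtain ⟨a, b, d1, d2, d3⟩ := hD i hi
    have a1 := hu i
    have a2 := hu (i + 1)
    have a3 := hv (π i + 1)
    have bd : ∀ {w : ℕ → ℕ} {j : ℕ}, j < t → w t = 0 → w (j + 1) ≤ 2 * P →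
        j * W + W + w (j + 1) ≤ t * W := fun {w j} hj e1 e2 => by
      by_cases c : j + 1 = t
      · rw [c, e1, ← c, Nat.succ_mul]
        omega
      · have := mul_step W (show j + 1 < t by omega)
        rw [Nat.succ_mul] at this
        omega
    have a4 := bd hi ut a2
    have a5 := bd (hπ i hi) vt a3
    refine ⟨by dsimp only; omega, by dsimp only; omega, hm _ (by dsimp only; omega)
      (by dsimp only; omega) ⟨i, hi, by dsimp only; omega, ?_, a, b, d1, by dsimp only; omega⟩⟩
    rw [Nat.succ_mul]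
    dsimp only
    omega
  have hl : ∀ n, ((List.range n).map seg).flatten.length = n * W + u n := by
    intro n
    induction n with
    | zero => simp [u0]
    | succ n ih =>
      have := hu n
      rw [List.range_succ, List.map_append, List.flatten_append, List.length_append, ih,
        Nat.succ_mul]
      simp only [seg, List.map_cons, List.map_nil, List.flatten_cons, List.flatten_nil,
        List.append_nil, List.length_map, List.length_range]
      omega
  have hp : ((List.range t).map π).Perm (List.range t) := by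
    refine (List.perm_ext_iff_of_nodup (List.nodup_range.map_on fun i hi j hj e => ?_)
      List.nodup_range).2 fun j => ?_
    · rw [← hinv i (List.mem_range.1 hi), e, hinv j (List.mem_range.1 hj)]
    · simp only [List.mem_map, List.mem_range]
      exact ⟨fun ⟨i, hi, e⟩ => e ▸ hπ i hi, fun hj => ⟨π j, hπ j hj, hinv j hj⟩⟩
  refine ⟨(List.range t).map seg, (List.range t).map fun j => seg (π j), ?_, ?_, ?_, ?_, ?_, ?_⟩
  · refine sublist_of_pairwise (R := L1) (fun x y a b => by unfold L1 at a b; omega)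
      ((pairwise_cut (g := Prod.fst) (u := u) (W := W) (fun i => by have := hu i; omega)
        (fun i _ => ?_) fun i hi z hz => (hs i hi z hz).1).imp Or.inl) h1 fun z hz => ?_
    · exact List.pairwise_map.2 (List.pairwise_lt_range.imp fun c => by dsimp only; omega)
    · obtain ⟨s, h3, h4⟩ := List.mem_flatten.1 hz
      obtain ⟨i, hi, rfl⟩ := List.mem_map.1 h3
      exact (hs i (List.mem_range.1 hi) z h4).2.2.1
  · refine sublist_of_pairwise (R := L2) (fun x y a b => by unfold L2 at a b; omega)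
      ((pairwise_cut (g := Prod.snd) (u := v) (W := W) (fun i => by have := hv i; omega)
        (fun i _ => ?_) fun i hi z hz => ?_).imp Or.inl) h2 fun z hz => ?_
    · exact List.pairwise_map.2 (List.pairwise_lt_range.imp fun c => by dsimp only; omega)
    · have := (hs _ (hπ i hi) z hz).2.1
      rwa [hinv i hi] at this
    · obtain ⟨s, h3, h4⟩ := List.mem_flatten.1 hz
      obtain ⟨i, hi, rfl⟩ := List.mem_map.1 h3
      exact (hs _ (hπ i (List.mem_range.1 hi)) z h4).2.2.2
  · have := (hp.map seg).symm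
    rwa [List.map_map] at this
  · intro s h3
    obtain ⟨i, -, rfl⟩ := List.mem_map.1 h3
    have := hu i
    simp only [seg, List.length_map, List.length_range]
    omega
  · rw [hl]
    omega
  · simp

end Pool.Agent.MP_eb915b_lc.Few
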