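import Pool.Agent.MP_eb915b_lc.Few.B
import Pool.Agent.Mg.Xeb915b.G8b3df9

/-! The arrangement of regions that encodes a clique. -/

set_option autoImplicit false

namespace Pool.Agent.MP_eb915b_lc.Few

/-- the index of a chain on its side -/
def bs (k q : ℕ) : ℕ := if q < k then q else q - k

/-- cyclic shift -/
def nx (k a o : ℕ) : ℕ := if a + o < k then a + o else a + o - k

/-- the chain of the partner -/
def piQ (k q s : ℕ) : ℕ :=
  if s % 2 = 1 then q else (if q < k then k else 0) + nx k (bs k q) (s / 2)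

/-- the position of the partner -/
def piS (k s : ℕ) : ℕ := if s % 2 = 1 then s else if s = 0 then s else if s = 2 * k then s
  else 2 * k - s

/-- the rank of position `s` of chain `q` -/
def idx (k q s : ℕ) : ℕ := q * (2 * k + 1) + s

/-- the row rank of a region -/
def pi (k i : ℕ) : ℕ :=
  idx k (piQ k (i / (2 * k + 1)) (i % (2 * k + 1))) (piS k (i % (2 * k + 1)))

/-- a Sidon sequence -/
def sd (n u : ℕ) : ℕ := u * u * (2 * n) + u

/-- the admissible pairs of vertices of a region -/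
def okk (k : ℕ) (A : ℕ → ℕ → Bool) (q s u v : ℕ) : Bool :=
  if s % 2 = 1 then (if q < k then decide (v = 0) else decide (u = 0))
  else if q < k then (if s = 0 then decide (u = 0) && decide (v = 0) else
    if s = 2 * k then decide (u = 0) && decide (v = 0) else A u v)
  else decide (u = 0) && decide (v = 0)

/-- the diagonals of a region -/
def Dg (k n T : ℕ) (A : ℕ → ℕ → Bool) (i a b : ℕ) : Prop :=
  ∃ u < n, ∃ v < n, okk k A (i / (2 * k + 1)) (i % (2 * k + 1)) u v = true ∧
    a = (8 * T + 1) * sd n u ∧ b = (8 * T + 1) * sd n v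

theorem idx_div {k q s : ℕ} (h : s < 2 * k + 1) : idx k q s / (2 * k + 1) = q := by
  unfold idx
  rw [mul_comm, Nat.mul_add_div (by omega), Nat.div_eq_of_lt h, add_zero]

theorem idx_mod {k q s : ℕ} (h : s < 2 * k + 1) : idx k q s % (2 * k + 1) = s := by
  unfold idx
  rw [mul_comm, Nat.mul_add_mod, Nat.mod_eq_of_lt h]

theorem pi_idx {k q s : ℕ} (h : s < 2 * k + 1) :
    pi k (idx k q s) = idx k (piQ k q s) (piS k s) := by
  rw [pi, idx_div h, idx_mod h]

theorem idx_lt {k q s : ℕ} (hq : q < 2 * k) (h : s < 2 * k + 1) :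
    idx k q s < 2 * k * (2 * k + 1) := by
  have := mul_step (2 * k + 1) hq
  unfold idx
  omega

theorem exists_idx {k i : ℕ} (h : i < 2 * k * (2 * k + 1)) :
    ∃ q < 2 * k, ∃ s < 2 * k + 1, i = idx k q s :=
  ⟨i / (2 * k + 1), Nat.div_lt_of_lt_mul (by rwa [mul_comm]), i % (2 * k + 1),
    Nat.mod_lt _ (by omega), by rw [idx, mul_comm, Nat.div_add_mod]⟩

theorem piQ_lt {k q s : ℕ} (hq : q < 2 * k) (h : s < 2 * k + 1) : piQ k q s < 2 * k := by
  unfold piQ nx bs
  split_ifs <;> omega

theorem piS_lt {k s : ℕ} (h : s < 2 * k + 1) : piS k s < 2 * k + 1 := by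
  unfold piS
  split_ifs <;> omega

theorem pi_lt {k : ℕ} : ∀ i < 2 * k * (2 * k + 1), pi k i < 2 * k * (2 * k + 1) := by
  intro i hi
  obtain ⟨q, hq, s, hs, rfl⟩ := exists_idx hi
  rw [pi_idx hs]
  exact idx_lt (piQ_lt hq hs) (piS_lt hs)

theorem nx_lt {k a o : ℕ} (ha : a < k) (ho : o ≤ k) : nx k a o < k := by
  unfold nx
  split_ifs <;> omega

theorem nx_nx {k a o : ℕ} (ha : a < k) (ho : o ≤ k) : nx k (nx k a o) (k - o) = a := by
  unfold nx
  split_ifs <;> omega

theorem nx_zero {k a : ℕ} (ha : a < k) : nx k a 0 = a := by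
  unfold nx
  split_ifs <;> omega

theorem nx_self {k a : ℕ} : nx k a k = a := by
  unfold nx
  split_ifs <;> omega

theorem pi_pi {k : ℕ} : ∀ i < 2 * k * (2 * k + 1), pi k (pi k i) = i := by
  intro i hi
  obtain ⟨q, hq, s, hs, rfl⟩ := exists_idx hi
  rw [pi_idx hs, pi_idx (piS_lt hs)]
  congr 1
  · have e : piS k s = s ∧ (s % 2 = 1 ∨ s = 0 ∨ s = 2 * k) ∨
        piS k s = 2 * k - s ∧ s % 2 = 0 ∧ 0 < s ∧ s < 2 * k := by
      unfold piS
      split_ifs <;> omega
    generalize piS k s = s' at e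
    unfold piQ nx bs
    split_ifs <;> omega
  · unfold piS
    split_ifs <;> omega

theorem sd_le {n u : ℕ} (h : u ≤ n) : sd n u ≤ sd n n :=
  Nat.add_le_add (Nat.mul_le_mul_right _ (Nat.mul_le_mul h h)) h

theorem sd_zero (n : ℕ) : sd n 0 = 0 := by simp [sd]

theorem sd_inj {n a b : ℕ} (ha : a < n) (hb : b < n) (h : sd n a = sd n b) : a = b :=
  ((rad_eq (by omega) (by omega)).1 h).2

theorem sidon {n a b c d : ℕ} (ha : a < n) (hb : b < n) (hc : c < n) (hd : d < n) (hab : a ≠ b)
    (h : sd n a + sd n d = sd n c + sd n b) : a = c ∧ b = d := by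
  have e : (a * a + d * d) * (2 * n) + (a + d) = (c * c + b * b) * (2 * n) + (c + b) := by
    unfold sd at h
    rw [add_mul, add_mul]
    omega
  obtain ⟨e1, e2⟩ := (rad_eq (by omega) (by omega)).1 e
  have e3 : ((a : ℤ) - b) * (a + b - c - d) = 0 := by
    zify at e1 e2
    have : (c : ℤ) = a + d - b := by omega
    rw [this] at e1 ⊢
    linear_combination e1
  rcases mul_eq_zero.1 e3 with e4 | e4 <;> omega

theorem dg_le {k n T : ℕ} {A : ℕ → ℕ → Bool} (i a b : ℕ) (h : Dg k n T A i a b) :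
    a ≤ (8 * T + 1) * sd n n ∧ b ≤ (8 * T + 1) * sd n n := by
  obtain ⟨u, hu, v, hv, -, rfl, rfl⟩ := h
  exact ⟨Nat.mul_le_mul_left _ (sd_le hu.le), Nat.mul_le_mul_left _ (sd_le hv.le)⟩

theorem exact_of_near {T a b c d a' b' c' d' : ℕ}
    (h1 : (8 * T + 1) * a + (8 * T + 1) * b + (8 * T + 1) * c + (8 * T + 1) * d ≤
      (8 * T + 1) * a' + (8 * T + 1) * b' + (8 * T + 1) * c' + (8 * T + 1) * d' + 8 * T) :
    a + b + c + d ≤ a' + b' + c' + d' := by
  simp only [← mul_add] at h1
  by_contra h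
  have := mul_step (8 * T + 1) (not_le.1 h)
  rw [mul_comm _ (8 * T + 1), mul_comm _ (8 * T + 1)] at this
  omega

theorem clq_of_core {k n T W : ℕ} {A : ℕ → ℕ → Bool} (hA : ∀ a < n, A a a = false)
    {X Y : ℕ → ℕ}
    (h : ∀ i < 2 * k * (2 * k + 1), X (i + 1) + Y (pi k i) = Y (pi k i + 1) + X i ∧
      ∃ a b, Dg k n T A i a b ∧ Y (pi k i) + i * W + b ≤ X i + pi k i * W + a + 2 * T ∧
        X i + pi k i * W + a ≤ Y (pi k i) + i * W + b + 2 * T) : Clq k n A := by
  have h' : ∀ i, ∃ u v, i < 2 * k * (2 * k + 1) → u < n ∧ v < n ∧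
      okk k A (i / (2 * k + 1)) (i % (2 * k + 1)) u v = true ∧
      Y (pi k i) + i * W + (8 * T + 1) * sd n v ≤
        X i + pi k i * W + (8 * T + 1) * sd n u + 2 * T ∧
      X i + pi k i * W + (8 * T + 1) * sd n u ≤
        Y (pi k i) + i * W + (8 * T + 1) * sd n v + 2 * T := fun i => by
    by_cases hi : i < 2 * k * (2 * k + 1)
    · obtain ⟨-, a, b, ⟨u, hu, v, hv, h1, rfl, rfl⟩, h2⟩ := h i hi
      exact ⟨u, v, fun _ => ⟨hu, hv, h1, h2⟩⟩
    · exact ⟨0, 0, fun c => (hi c).elim⟩
  choose u v huv using h'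
  have split : ∀ e, e + 1 < 2 * k * (2 * k + 1) → ∀ z, z + 1 < 2 * k * (2 * k + 1) →
      pi k e = z → pi k z = e → pi k (e + 1) = e + 1 → pi k (z + 1) = z + 1 →
      sd n (u e) + sd n (u z) + sd n (v (e + 1)) + sd n (v (z + 1)) =
        sd n (u (e + 1)) + sd n (u (z + 1)) + sd n (v e) + sd n (v z) := by
    intro e he z hz p1 p2 p3 p4
    have a1 := (h e (by omega)).1
    have a2 := (h z (by omega)).1
    have a3 := (huv e (by omega)).2.2.2
    have a4 := (huv z (by omega)).2.2.2
    have a5 := (huv _ he).2.2.2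
    have a6 := (huv _ hz).2.2.2
    rw [p1] at a1 a3
    rw [p2] at a2 a4
    rw [p3] at a5
    rw [p4] at a6
    exact le_antisymm (exact_of_near (T := T) (by omega)) (exact_of_near (T := T) (by omega))
  have merge : ∀ e, e + 1 < 2 * k * (2 * k + 1) → ∀ z, z + 1 < 2 * k * (2 * k + 1) →
      pi k (e + 1) = z + 1 → pi k (z + 1) = e + 1 → pi k e = e → pi k z = z →
      sd n (u e) + sd n (u z) + sd n (v (e + 1)) + sd n (v (z + 1)) =
        sd n (u (e + 1)) + sd n (u (z + 1)) + sd n (v e) + sd n (v z) := by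
    intro e he z hz p1 p2 p3 p4
    have a1 := (h e (by omega)).1
    have a2 := (h z (by omega)).1
    have a3 := (huv e (by omega)).2.2.2
    have a4 := (huv z (by omega)).2.2.2
    have a5 := (huv _ he).2.2.2
    have a6 := (huv _ hz).2.2.2
    rw [p3] at a1 a3
    rw [p4] at a2 a4
    rw [p1] at a5
    rw [p2] at a6
    exact le_antisymm (exact_of_near (T := T) (by omega)) (exact_of_near (T := T) (by omega))
  have ok : ∀ q < 2 * k, ∀ s < 2 * k + 1, u (idx k q s) < n ∧ v (idx k q s) < n ∧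
      okk k A q s (u (idx k q s)) (v (idx k q s)) = true := fun q hq s hs => by
    obtain ⟨a1, a2, a3, -⟩ := huv _ (idx_lt hq hs)
    rw [idx_div hs, idx_mod hs] at a3
    exact ⟨a1, a2, a3⟩
  have wire : ∀ q s, s < 2 * k + 1 → s % 2 = 1 → pi k (idx k q s) = idx k q s :=
    fun q s hs e => by rw [pi_idx hs, piQ, piS, if_pos e, if_pos e]
  have okr : ∀ q < k, ∀ s < 2 * k + 1, s % 2 = 1 → v (idx k q s) = 0 := fun q hq s hs e => by
    simpa [okk, e, hq] using (ok q (by omega) s hs).2.2
  have okc : ∀ q < k, ∀ s < 2 * k + 1, s % 2 = 1 → u (idx k (k + q) s) = 0 :=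
    fun q hq s hs e => by simpa [okk, e] using (ok (k + q) (by omega) s hs).2.2
  have okz : ∀ q < k, ∀ s < 2 * k + 1, s % 2 = 0 →
      u (idx k (k + q) s) = 0 ∧ v (idx k (k + q) s) = 0 :=
    fun q hq s hs e => by simpa [okk, e] using (ok (k + q) (by omega) s hs).2.2
  have start : ∀ q < k, u (idx k q 1) = v (idx k (k + q) 1) := fun q hq => by
    have p1 : pi k (idx k q 0) = idx k (k + q) 0 := by
      rw [pi_idx (by omega)]
      simp [piQ, piS, bs, hq, nx_zero hq]
    have p2 := pi_pi _ (idx_lt (k := k) (q := q) (s := 0) (by omega) (by omega))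
    rw [p1] at p2
    have a1 := split (idx k q 0) (idx_lt (q := q) (s := 1) (by omega) (by omega))
      (idx k (k + q) 0) (idx_lt (q := k + q) (s := 1) (by omega) (by omega)) p1 p2
      (wire q 1 (by omega) rfl) (wire (k + q) 1 (by omega) rfl)
    change _ + _ + sd n (v (idx k q 1)) + sd n (v (idx k (k + q) 1)) =
      sd n (u (idx k q 1)) + sd n (u (idx k (k + q) 1)) + _ + _ at a1
    have a2 : u (idx k q 0) = 0 ∧ v (idx k q 0) = 0 := by
      simpa [okk, hq] using (ok q (by omega) 0 (by omega)).2.2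
    have a3 := okz q hq 0 (by omega) rfl
    rw [a2.1, a2.2, a3.1, a3.2, okr q hq 1 (by omega) rfl, okc q hq 1 (by omega) rfl,
      sd_zero] at a1
    exact sd_inj (ok q (by omega) 1 (by omega)).1 (ok (k + q) (by omega) 1 (by omega)).2.1
      (by omega)
  have step : ∀ q < k, ∀ o o', o + 1 + (o' + 1) = k →
      u (idx k q (2 * o + 1 + 1 + 1)) = u (idx k q (2 * o + 1)) ∧
      v (idx k (k + nx k q (o + 1)) (2 * o' + 1 + 1 + 1)) =
        v (idx k (k + nx k q (o + 1)) (2 * o' + 1)) ∧
      A (u (idx k q (2 * o + 1))) (v (idx k (k + nx k q (o + 1)) (2 * o' + 1))) = true := by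
    intro q hq o o' ho
    have hc := nx_lt hq (show o + 1 ≤ k by omega)
    have p1 : pi k (idx k q (2 * o + 1 + 1)) =
        idx k (k + nx k q (o + 1)) (2 * o' + 1 + 1) := by
      rw [pi_idx (by omega), piQ, piS, bs, if_neg (by omega), if_pos hq, if_pos hq,
        if_neg (by omega), if_neg (by omega), if_neg (by omega),
        show (2 * o + 1 + 1) / 2 = o + 1 by omega,
        show 2 * k - (2 * o + 1 + 1) = 2 * o' + 1 + 1 by omega]
    generalize nx k q (o + 1) = c at hc p1 ⊢
    have p2 := pi_pi _ (idx_lt (k := k) (q := q) (s := 2 * o + 1 + 1) (by omega) (by omega))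
    rw [p1] at p2
    have a1 := split (idx k q (2 * o + 1 + 1))
      (idx_lt (q := q) (s := 2 * o + 1 + 1 + 1) (by omega) (by omega))
      (idx k (k + c) (2 * o' + 1 + 1)) (idx_lt (q := k + c) (s := 2 * o' + 1 + 1 + 1) (by omega) (by omega)) p1 p2
      (wire q (2 * o + 1 + 1 + 1) (by omega) (by omega))
      (wire (k + c) (2 * o' + 1 + 1 + 1) (by omega) (by omega))
    change _ + _ + sd n (v (idx k q (2 * o + 1 + 1 + 1))) +
      sd n (v (idx k (k + c) (2 * o' + 1 + 1 + 1))) = sd n (u (idx k q (2 * o + 1 + 1 + 1))) +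
      sd n (u (idx k (k + c) (2 * o' + 1 + 1 + 1))) + _ + _ at a1
    have a2 := merge (idx k q (2 * o + 1))
      (idx_lt (q := q) (s := 2 * o + 1 + 1) (by omega) (by omega)) (idx k (k + c) (2 * o' + 1))
      (idx_lt (q := k + c) (s := 2 * o' + 1 + 1) (by omega) (by omega)) p1 p2
      (wire q (2 * o + 1) (by omega) (by omega)) (wire (k + c) (2 * o' + 1) (by omega) (by omega))
    change _ + _ + sd n (v (idx k q (2 * o + 1 + 1))) +
      sd n (v (idx k (k + c) (2 * o' + 1 + 1))) = sd n (u (idx k q (2 * o + 1 + 1))) +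
      sd n (u (idx k (k + c) (2 * o' + 1 + 1))) + _ + _ at a2
    have a3 := okz c hc (2 * o' + 1 + 1) (by omega) (by omega)
    obtain ⟨b1, b2, b3⟩ := ok q (by omega) (2 * o + 1 + 1) (by omega)
    rw [okk, if_neg (by omega), if_pos hq, if_neg (by omega), if_neg (by omega)] at b3
    rw [a3.1, a3.2, okr q hq (2 * o + 1 + 1 + 1) (by omega) (by omega),
      okc c hc (2 * o' + 1 + 1 + 1) (by omega) (by omega), sd_zero] at a1
    rw [a3.1, a3.2, okr q hq (2 * o + 1) (by omega) (by omega),
      okc c hc (2 * o' + 1) (by omega) (by omega), sd_zero] at a2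
    have hne : u (idx k q (2 * o + 1 + 1)) ≠ v (idx k q (2 * o + 1 + 1)) := fun e => by
      rw [e, hA _ b2] at b3
      exact Bool.false_ne_true b3
    have s1 := sidon b1 b2 (ok q (by omega) (2 * o + 1 + 1 + 1) (by omega)).1
      (ok (k + c) (by omega) (2 * o' + 1 + 1 + 1) (by omega)).2.1 hne (by omega)
    have s2 := sidon b1 b2 (ok q (by omega) (2 * o + 1) (by omega)).1
      (ok (k + c) (by omega) (2 * o' + 1) (by omega)).2.1 hne (by omega)
    exact ⟨s1.1.symm.trans s2.1, s1.2.symm.trans s2.2, s2.1 ▸ s2.2 ▸ b3⟩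
  have row : ∀ q < k, ∀ o < k, u (idx k q (2 * o + 1)) = u (idx k q 1) := by
    intro q hq o
    induction o with
    | zero => exact fun _ => rfl
    | succ o ih =>
      intro ho
      exact (step q hq o (k - o - 2) (by omega)).1.trans (ih (by omega))
  have col : ∀ q < k, ∀ o < k, v (idx k (k + q) (2 * o + 1)) = u (idx k q 1) := by
    intro q hq o
    induction o with
    | zero => exact fun _ => (start q hq).symm
    | succ o ih =>
      intro ho
      have a1 := (step _ (nx_lt hq (show o + 1 ≤ k by omega)) (k - o - 2) o (by omega)).2.1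
      rw [show k - o - 2 + 1 = k - (o + 1) by omega, nx_nx hq (by omega)] at a1
      exact a1.trans (ih (by omega))
  refine ⟨fun q => u (idx k q 1), fun q hq => (ok q (by omega) 1 (by omega)).1,
    fun a ha b hb hab => ?_⟩
  obtain ⟨o, ho, e⟩ : ∃ o, o + 1 < k ∧ nx k a (o + 1) = b := by
    refine ⟨if a < b then b - a - 1 else k + b - a - 1, ?_, ?_⟩
    · split_ifs <;> omega
    · unfold nx
      split_ifs <;> omega
  have a1 := (step a ha o (k - o - 2) (by omega)).2.2
  rwa [e, row a ha o (by omega), col b hb _ (by omega)] at a1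

/-- the cut before position `s` of chain `q`, on the side given by `b` -/
def cut (k : ℕ) (w : ℕ → ℕ) (b : Prop) [Decidable b] (q s : ℕ) : ℕ :=
  if s = 0 ∨ s = 2 * k + 1 then 0
  else (if b then w (bs k q) else 0) + w (nx k (bs k q) (s / 2))

theorem cuts_of_clq {k n T : ℕ} {A : ℕ → ℕ → Bool} (h : Clq k n A) :
    ∃ u v : ℕ → ℕ, (∀ i, u i ≤ 2 * ((8 * T + 1) * sd n n)) ∧
      (∀ i, v i ≤ 2 * ((8 * T + 1) * sd n n)) ∧ u 0 = 0 ∧ u (2 * k * (2 * k + 1)) = 0 ∧
      v (2 * k * (2 * k + 1)) = 0 ∧ ∀ i < 2 * k * (2 * k + 1), ∃ a b, Dg k n T A i a b ∧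
        v (pi k i) + b = u i + a ∧ v (pi k i + 1) + b = u (i + 1) + a := by
  obtain ⟨x, hx, hA⟩ := h
  let w : ℕ → ℕ := fun a => if a < k then (8 * T + 1) * sd n (x a) else 0
  have hw : ∀ a, w a ≤ (8 * T + 1) * sd n n := fun a => by
    dsimp only [w]
    split_ifs with c
    · exact Nat.mul_le_mul_left _ (sd_le (hx a c).le)
    · omega
  have hw' : ∀ a < k, (8 * T + 1) * sd n (x a) = w a := fun a ha => (if_pos ha).symm
  clear_value w
  have bd : ∀ (b : Prop) [Decidable b] (q s : ℕ), cut k w b q s ≤ 2 * ((8 * T + 1) * sd n n) := by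
    intro b _ q s
    have a1 := hw (bs k q)
    have a2 := hw (nx k (bs k q) (s / 2))
    unfold cut
    split_ifs <;> omega
  let u : ℕ → ℕ := fun i =>
    cut k w (¬ i / (2 * k + 1) < k) (i / (2 * k + 1)) (i % (2 * k + 1))
  let v : ℕ → ℕ := fun i =>
    cut k w (i / (2 * k + 1) < k) (i / (2 * k + 1)) (i % (2 * k + 1))
  have e0 : ∀ q s, s < 2 * k + 1 → u (idx k q s) = cut k w (¬ q < k) q s ∧
      v (idx k q s) = cut k w (q < k) q s := fun q s hs => by
    simp only [u, v, idx_div hs, idx_mod hs, and_self]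
  have e1 : ∀ q s, s < 2 * k + 1 → u (idx k q s + 1) = cut k w (¬ q < k) q (s + 1) ∧
      v (idx k q s + 1) = cut k w (q < k) q (s + 1) := fun q s hs => by
    by_cases c : s = 2 * k
    · have a1 := e0 (q + 1) 0 (by omega)
      rw [show idx k q s + 1 = idx k (q + 1) 0 by rw [idx, idx, c]; ring, a1.1, a1.2, c]
      simp [cut]
    · exact e0 q (s + 1) (by omega)
  refine ⟨u, v, fun i => bd _ _ _, fun i => bd _ _ _, by simp [u, cut], by simp [u, cut],
    by simp [v, cut], fun i hi => ?_⟩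
  obtain ⟨q, hq, s, hs, rfl⟩ := exists_idx hi
  have hn : 0 < n := by
    have := hx 0 (by omega)
    omega
  have dg : ∀ a < n, ∀ b < n, okk k A q s a b = true →
      Dg k n T A (idx k q s) ((8 * T + 1) * sd n a) ((8 * T + 1) * sd n b) :=
    fun a ha b hb c => ⟨a, ha, b, hb, by rwa [idx_div hs, idx_mod hs], rfl, rfl⟩
  rw [pi_idx hs, (e0 q s hs).1, (e1 q s hs).1, (e0 _ _ (piS_lt hs)).2, (e1 _ _ (piS_lt hs)).2]
  clear e0 e1
  clear_value u v
  obtain ⟨c, hc, rfl | rfl⟩ : ∃ c < k, q = c ∨ q = k + c := by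
    by_cases c : q < k
    · exact ⟨q, c, Or.inl rfl⟩
    · exact ⟨q - k, by omega, Or.inr (by omega)⟩
  · have b0 : bs k q = q := if_pos hc
    by_cases c1 : s % 2 = 1
    · refine ⟨_, _, dg (x q) (hx q hc) 0 hn (by simp [okk, c1, hc]), ?_⟩
      rw [hw' q hc, sd_zero, piQ, piS, if_pos c1, if_pos c1]
      simp only [cut, b0, hc, not_true, if_true, if_false]
      rw [if_neg (by omega), if_neg (by omega), if_neg (by omega), if_neg (by omega)]
      omega
    · have hc' := nx_lt hc (show s / 2 ≤ k by omega)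
      have b1 : bs k (k + nx k q (s / 2)) = nx k q (s / 2) := by
        rw [bs, if_neg (by omega)]
        omega
      have b2 : ¬ k + nx k q (s / 2) < k := by omega
      rw [piQ, piS, if_neg c1, if_neg c1, if_pos hc, b0]
      simp only [cut, b0, b1, b2, hc, not_true, if_false]
      by_cases c2 : s = 0
      · refine ⟨_, _, dg 0 hn 0 hn (by simp [okk, c2, hc]), ?_⟩
        subst c2
        simp [nx_zero hc]
      by_cases c3 : s = 2 * k
      · refine ⟨_, _, dg 0 hn 0 hn (by simp [okk, c3, hc]), ?_⟩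
        subst c3
        simp [nx_self]
      · refine ⟨_, _, dg (x q) (hx q hc) (x (nx k q (s / 2))) (hx _ hc') ?_, ?_⟩
        · rw [okk, if_neg c1, if_pos hc, if_neg c2, if_neg c3]
          refine hA _ hc _ hc' ?_
          unfold nx
          split_ifs <;> omega
        · rw [hw' q hc, hw' _ hc', if_neg c2, if_neg c3, if_neg (by omega), if_neg (by omega),
            if_neg (by omega), if_neg (by omega), show (2 * k - s) / 2 = k - s / 2 by omega,
            show (2 * k - s + 1) / 2 = k - s / 2 by omega, show (s + 1) / 2 = s / 2 by omega,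
            nx_nx hc (by omega)]
          omega
  · have b0 : bs k (k + c) = c := by
      rw [bs, if_neg (by omega)]
      omega
    have b3 : ¬ k + c < k := by omega
    by_cases c1 : s % 2 = 1
    · refine ⟨_, _, dg 0 hn (x c) (hx c hc) (by simp [okk, c1]), ?_⟩
      rw [hw' c hc, sd_zero, piQ, piS, if_pos c1, if_pos c1]
      simp only [cut, b0, b3, not_false_eq_true, if_true, if_false]
      rw [if_neg (by omega), if_neg (by omega), if_neg (by omega), if_neg (by omega)]
      omega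
    · have hc' := nx_lt hc (show s / 2 ≤ k by omega)
      have b1 : bs k (nx k c (s / 2)) = nx k c (s / 2) := if_pos hc'
      refine ⟨_, _, dg 0 hn 0 hn (by simp [okk, c1]), ?_⟩
      rw [piQ, piS, if_neg c1, if_neg c1, if_neg b3, b0, zero_add]
      simp only [cut, b0, b1, b3, hc', not_false_eq_true, if_true]
      by_cases c2 : s = 0
      · subst c2
        simp [nx_zero hc]
      by_cases c3 : s = 2 * k
      · subst c3
        simp [nx_self]
      · rw [if_neg c2, if_neg c3, if_neg (by omega), if_neg (by omega),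
          if_neg (by omega), if_neg (by omega), show (2 * k - s) / 2 = k - s / 2 by omega,
          show (2 * k - s + 1) / 2 = k - s / 2 by omega, show (s + 1) / 2 = s / 2 by omega,
          nx_nx hc (by omega)]
        omega

end Pool.Agent.MP_eb915b_lc.Few
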