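import Pool.Agent.MP_eb915b_lc.Few.C

/-! The reduction from the clique problem and its running time. -/

set_option autoImplicit false

open Pool.Agent.MP_2e8011_lc Pool.Agent.MP_e16607_lc Computability

namespace Pool.Agent.MP_eb915b_lc.Few

theorem fewStrips_map {α β : Type} (f : α → β) {G₁ G₂ : List α} {m t : ℕ}
    (h : FewStrips G₁ G₂ m t) : FewStrips (G₁.map f) (G₂.map f) m t := by
  obtain ⟨P₁, P₂, s1, s2, hp, hs, hm, hT⟩ := h
  refine ⟨P₁.map (List.map f), P₂.map (List.map f), ?_, ?_, hp.map _, fun s h => ?_, ?_, ?_⟩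
  · rw [← List.map_flatten]
    exact s1.map f
  · rw [← List.map_flatten]
    exact s2.map f
  · obtain ⟨s', h', rfl⟩ := List.mem_map.1 h
    simpa using hs s' h'
  · rwa [← List.map_flatten, List.length_map]
  · rwa [List.length_map]

/-- the largest offset of a diagonal -/
def pp (n T : ℕ) : ℕ := (8 * T + 1) * sd n n

/-- the width of a region -/
def wd (n T : ℕ) : ℕ := 6 * pp n T + (2 * T + 1) * (2 * T + 1 + (2 * pp n T + 1))

/-- the side of the matrix -/
def side (k n T : ℕ) : ℕ := 2 * k * (2 * k + 1) * wd n T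

/-- the point lies on the diagonal `(u, v)` of region `i` -/
def on3 (k n T : ℕ) (A : ℕ → ℕ → Bool) (z : ℕ × ℕ) (i u v : ℕ) : Bool :=
  decide (i * wd n T ≤ z.1) && decide (z.1 < (i + 1) * wd n T + 2 * pp n T) &&
    okk k A (i / (2 * k + 1)) (i % (2 * k + 1)) u v &&
    decide (z.2 + i * wd n T + (8 * T + 1) * sd n v = z.1 + pi k i * wd n T + (8 * T + 1) * sd n u)

/-- the ones of the matrix -/
def on (k n T : ℕ) (A : ℕ → ℕ → Bool) (z : ℕ × ℕ) : Bool :=
  (prd (List.range (2 * k * (2 * k + 1))) (prd (List.range n) (List.range n))).any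
    fun y => on3 k n T A z y.1 y.2.1 y.2.2

theorem on_iff {k n T : ℕ} {A : ℕ → ℕ → Bool} {z : ℕ × ℕ} : on k n T A z = true ↔
    ∃ i < 2 * k * (2 * k + 1), Reg (wd n T) (pp n T) (pi k) (Dg k n T A) i z := by
  simp only [on, on3, List.any_eq_true, mem_prd, List.mem_range, Bool.and_eq_true,
    decide_eq_true_eq]
  constructor
  · rintro ⟨⟨i, u, v⟩, ⟨h1, h2, h3⟩, ⟨⟨h4, h5⟩, h6⟩, h7⟩
    exact ⟨i, h1, h4, h5, _, _, ⟨u, h2, v, h3, h6, rfl, rfl⟩, h7⟩
  · rintro ⟨i, h1, h4, h5, _, _, ⟨u, h2, v, h3, h6, rfl, rfl⟩, h7⟩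
    exact ⟨(i, u, v), ⟨h1, h2, h3⟩, ⟨⟨h4, h5⟩, h6⟩, h7⟩

/-- the grid by columns -/
def grid1 (K : ℕ) : List (ℕ × ℕ) :=
  (prd (List.range K) (List.range K)).map fun y => (y.1, K - 1 - y.2)

/-- the grid by rows -/
def grid2 (K : ℕ) : List (ℕ × ℕ) :=
  (prd (List.range K) (List.range K)).map fun y => (K - 1 - y.2, y.1)

theorem pairwise_prd (K : ℕ) : (prd (List.range K) (List.range K)).Pairwise
    fun x y => x.1 < y.1 ∨ (x.1 = y.1 ∧ x.2 < y.2 ∧ y.2 < K) := by
  rw [prd, List.pairwise_flatMap]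
  refine ⟨fun a _ => List.pairwise_map.2 (List.pairwise_lt_range.imp_of_mem fun _ hy h =>
    Or.inr ⟨rfl, h, List.mem_range.1 hy⟩), List.pairwise_lt_range.imp fun h x hx y hy => ?_⟩
  obtain ⟨_, -, rfl⟩ := List.mem_map.1 hx
  obtain ⟨_, -, rfl⟩ := List.mem_map.1 hy
  exact Or.inl h

theorem pairwise_grid1 (K : ℕ) : (grid1 K).Pairwise L1 :=
  List.pairwise_map.2 ((pairwise_prd K).imp fun h => by unfold L1; dsimp only; omega)

theorem pairwise_grid2 (K : ℕ) : (grid2 K).Pairwise L2 :=
  List.pairwise_map.2 ((pairwise_prd K).imp fun h => by unfold L2; dsimp only; omega)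

theorem mem_grid1 {K : ℕ} {z : ℕ × ℕ} : z ∈ grid1 K ↔ z.1 < K ∧ z.2 < K := by
  simp only [grid1, List.mem_map, mem_prd, List.mem_range]
  constructor
  · rintro ⟨y, h, rfl⟩
    dsimp only
    omega
  · intro h
    exact ⟨(z.1, K - 1 - z.2), by dsimp only; omega, Prod.ext rfl (by dsimp only; omega)⟩

theorem mem_grid2 {K : ℕ} {z : ℕ × ℕ} : z ∈ grid2 K ↔ z.1 < K ∧ z.2 < K := by
  simp only [grid2, List.mem_map, mem_prd, List.mem_range]
  constructor
  · rintro ⟨y, h, rfl⟩
    dsimp only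
    omega
  · intro h
    exact ⟨(z.2, K - 1 - z.1), by dsimp only; omega, Prod.ext (by dsimp only; omega) rfl⟩

/-- the first sequence -/
def seq1 (k n T : ℕ) (A : ℕ → ℕ → Bool) : List (ℕ × ℕ) :=
  (grid1 (side k n T)).filter (on k n T A)

/-- the second sequence -/
def seq2 (k n T : ℕ) (A : ℕ → ℕ → Bool) : List (ℕ × ℕ) :=
  (grid2 (side k n T)).filter (on k n T A)

section
variable {k n T : ℕ} {A : ℕ → ℕ → Bool}

theorem nodup_seq1 : (seq1 k n T A).Nodup :=
  ((pairwise_grid1 _).filter _).imp fun {a b} c e => by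
    unfold L1 at c
    rw [e] at c
    omega

theorem nodup_seq2 : (seq2 k n T A).Nodup :=
  ((pairwise_grid2 _).filter _).imp fun {a b} c e => by
    unfold L2 at c
    rw [e] at c
    omega

theorem perm_seq : (seq1 k n T A).Perm (seq2 k n T A) :=
  (List.perm_ext_iff_of_nodup nodup_seq1 nodup_seq2).2 fun z => by
    simp only [seq1, seq2, List.mem_filter, mem_grid1, mem_grid2]

theorem few_of_clq (h : Clq k n A) :
    FewStrips (seq1 k n T A) (seq2 k n T A) (side k n T) (2 * k * (2 * k + 1)) := by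
  obtain ⟨u, v, hu, hv, u0, ut, vt, hD⟩ := cuts_of_clq (T := T) h
  refine complete (P := pp n T) pi_lt pi_pi ?_ hu hv u0 ut vt hD ((pairwise_grid1 _).filter _)
    ((pairwise_grid2 _).filter _) fun z h1 h2 h3 => ?_
  · have := Nat.mul_le_mul_right (2 * T + 1 + (2 * pp n T + 1)) (show 1 ≤ 2 * T + 1 by omega)
    unfold wd
    omega
  · simp only [seq1, seq2, List.mem_filter, mem_grid1, mem_grid2, on_iff]
    exact ⟨⟨⟨h1, h2⟩, h3⟩, ⟨h1, h2⟩, h3⟩

theorem clq_of_few (hA : ∀ a < n, A a a = false)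
    (h : FewStrips (seq1 k n T A) (seq2 k n T A) (side k n T) T) : Clq k n A := by
  obtain ⟨Z, β, γ, hs, hc, hZ⟩ := exists_sol ((pairwise_grid1 _).filter _)
    ((pairwise_grid2 _).filter _) h
  simp only [List.mem_filter, mem_grid1, on_iff] at hZ
  obtain ⟨X, Y, h1⟩ := core (P := pp n T) (W := wd n T) pi_pi dg_le le_rfl hs
    (fun z hz => (hZ z hz).1) hc fun z hz => (hZ z hz).2
  exact clq_of_core hA h1

end

/-- the name of a character -/
def nm (z : ℕ × ℕ) : ℕ := Nat.pair z.1 z.2

/-- the reduction, with the clique size in unary -/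
def red (M : List (List Bool)) (k T : ℕ) : List ℕ × List ℕ × ℕ :=
  if M.length < k then ([], [], 1)
  else ((seq1 k M.length T (entry M)).map nm, (seq2 k M.length T (entry M)).map nm,
    side k M.length T)

/-- the reduction -/
def reduction (x : List (List Bool) × ℕ × List Bool) : List ℕ × List ℕ × ℕ :=
  red x.1 (min x.2.1 (x.1.length + 1)) x.2.2.length

section time
variable {α : Type} [Enc α]

@[fun_prop] theorem pt_sd {n u : α → ℕ} (hn : PT n) (hu : PT u) :
    PT (fun x => sd (n x) (u x)) := by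
  unfold sd
  fun_prop

@[fun_prop] theorem pt_pp {n u : α → ℕ} (hn : PT n) (hu : PT u) :
    PT (fun x => pp (n x) (u x)) := by
  unfold pp
  fun_prop

@[fun_prop] theorem pt_wd {n u : α → ℕ} (hn : PT n) (hu : PT u) :
    PT (fun x => wd (n x) (u x)) := by
  unfold wd
  fun_prop

@[fun_prop] theorem pt_side {k n u : α → ℕ} (hk : PT k) (hn : PT n) (hu : PT u) :
    PT (fun x => side (k x) (n x) (u x)) := by
  unfold side
  fun_prop

@[fun_prop] theorem pt_piQ {k n u : α → ℕ} (hk : PT k) (hn : PT n) (hu : PT u) :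
    PT (fun x => piQ (k x) (n x) (u x)) := by
  unfold piQ nx bs
  fun_prop

@[fun_prop] theorem pt_piS {n u : α → ℕ} (hn : PT n) (hu : PT u) :
    PT (fun x => piS (n x) (u x)) := by
  unfold piS
  fun_prop

@[fun_prop] theorem pt_pi {n u : α → ℕ} (hn : PT n) (hu : PT u) :
    PT (fun x => pi (n x) (u x)) := by
  unfold pi idx
  fun_prop

theorem pt_okk {M : α → List (List Bool)} {k q s u v : α → ℕ} (hM : PT M) (hk : PT k)
    (hq : PT q) (hs : PT s) (hu : PT u) (hv : PT v) :
    PT (fun x => okk (k x) (entry (M x)) (q x) (s x) (u x) (v x)) := by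
  unfold okk
  fun_prop

theorem pt_on3 {M : α → List (List Bool)} {k n T i u v : α → ℕ} {z : α → ℕ × ℕ} (hM : PT M)
    (hk : PT k) (hn : PT n) (hT : PT T) (hz : PT z) (hi : PT i) (hu : PT u) (hv : PT v) :
    PT (fun x => on3 (k x) (n x) (T x) (entry (M x)) (z x) (i x) (u x) (v x)) := by
  unfold on3
  exact PT.and (PT.and (by fun_prop) (pt_okk hM hk (by fun_prop) (by fun_prop) hu hv))
    (by fun_prop)

theorem pt_on {M : α → List (List Bool)} {k n T : α → ℕ} {z : α → ℕ × ℕ} (hM : PT M)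
    (hk : PT k) (hn : PT n) (hT : PT T) (hz : PT z) :
    PT (fun x => on (k x) (n x) (T x) (entry (M x)) (z x)) := by
  unfold on
  exact PT.any (f := fun x (y : ℕ × ℕ × ℕ) =>
      on3 (k x) (n x) (T x) (entry (M x)) (z x) y.1 y.2.1 y.2.2) (by fun_prop)
    (pt_on3 (by fun_prop) (by fun_prop) (by fun_prop) (by fun_prop) (by fun_prop) (by fun_prop)
      (by fun_prop) (by fun_prop))

theorem pt_grid1 {K : α → ℕ} (hK : PT K) : PT (fun x => grid1 (K x)) := by
  unfold grid1
  fun_prop

theorem pt_grid2 {K : α → ℕ} (hK : PT K) : PT (fun x => grid2 (K x)) := by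
  unfold grid2
  fun_prop

theorem pt_red {M : α → List (List Bool)} {k T : α → ℕ} (hM : PT M) (hk : PT k) (hT : PT T) :
    PT (fun x => red (M x) (k x) (T x)) := by
  have h0 : ∀ {l : α → List (ℕ × ℕ)}, PT l → PT (fun x =>
      ((l x).filter (on (k x) (M x).length (T x) (entry (M x)))).map nm) := fun hl =>
    PT.map (f := fun _ t => nm t) (by unfold nm; fun_prop)
      (PT.filter (f := fun x z => on (k x) (M x).length (T x) (entry (M x)) z)
        (pt_on (by fun_prop) (by fun_prop) (by fun_prop) (by fun_prop) (by fun_prop)) hl)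
  unfold red seq1 seq2
  exact PT.ite (by fun_prop) (PT.const _) ((h0 (pt_grid1 (by fun_prop))).prodMk
    ((h0 (pt_grid2 (by fun_prop))).prodMk (by fun_prop)))

end time

/-- the output with its numbers written in binary -/
def outRaw (y : List ℕ × List ℕ × ℕ) : List Raw × List Raw × Raw :=
  (y.1.map binRaw, y.2.1.map binRaw, binRaw y.2.2)

theorem pt_outRaw : PT outRaw := by
  have h : ∀ {l : List ℕ × List ℕ × ℕ → List ℕ}, PT l → PT (fun x => (l x).map binRaw) :=
    fun hl => PT.map (f := fun _ t => binRaw t) (pt_binRaw (by fun_prop)) hl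
  exact (h (by fun_prop)).prodMk ((h (by fun_prop)).prodMk (pt_binRaw (by fun_prop)))

theorem isPolyTime_reduction : N68a2faeb.IsPolyTime reduction := by
  refine isPolyTime_of_PT
    (fun x : List (List Bool) × ℕ × List Bool => (x.1, binRaw x.2.1, x.2.2)) outRaw
    (fun x => bitEncode_prod (ι := fun M => M) (agree_list (agree_list agree_bool))
      (κ := fun z : ℕ × List Bool => (binRaw z.1, z.2))
      (bitEncode_prod bitEncode_nat (κ := fun l => l) (agree_list agree_bool)) x)
    (fun y => bitEncode_prod (bitEncode_list bitEncode_nat)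
        (κ := fun z : List ℕ × ℕ => (z.1.map binRaw, binRaw z.2))
        (bitEncode_prod (bitEncode_list bitEncode_nat) bitEncode_nat) y)
    (g := fun x : List (List Bool) × Raw × List Bool =>
      outRaw (red x.1 (min (val x.2.1.bits) (x.1.length + 1)) x.2.2.length)) ?_ fun x => ?_
  · exact pt_outRaw.comp (pt_red (by fun_prop) (pt_min_val (by fun_prop) (by fun_prop))
      (by fun_prop))
  · simp only [binRaw, val_encodeNat, reduction]

theorem reduction_spec {n : ℕ} (G : SimpleGraph (Fin n)) (k : ℕ) (pad : List Bool)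
    (G₁ G₂ : List ℕ) (m : ℕ) (h : reduction (adjRows G, k, pad) = (G₁, G₂, m)) :
    G₁.Nodup ∧ G₁.Perm G₂ ∧
      ((∃ s : Finset (Fin n), G.IsNClique k s) → FewStrips G₁ G₂ m (2 * k * (2 * k + 1))) ∧
      (FewStrips G₁ G₂ m pad.length → ∃ s : Finset (Fin n), G.IsNClique k s) := by
  simp only [reduction, red, length_adjRows] at h
  split_ifs at h with h1
  · obtain ⟨rfl, rfl, rfl⟩ := by simpa only [Prod.mk.injEq] using h
    refine ⟨List.nodup_nil, List.Perm.refl _, fun ⟨s, hs⟩ => ?_, fun ⟨P₁, _, s1, _, _, _, hm, _⟩ => ?_⟩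
    · have := s.card_le_univ
      rw [hs.card_eq, Fintype.card_fin] at this
      omega
    · rw [List.sublist_nil.1 s1] at hm
      simp at hm
  · have hk : min k (n + 1) = k := by omega
    rw [hk] at h
    obtain ⟨rfl, rfl, rfl⟩ := by simpa only [Prod.mk.injEq] using h
    have hg : ∀ z, Nat.unpair (nm z) = z := fun z => Nat.unpair_pair _ _
    refine ⟨nodup_seq1.map (Function.LeftInverse.injective hg), perm_seq.map _, fun c => ?_,
      fun c => ?_⟩
    · exact fewStrips_map nm (few_of_clq ((clq_iff G k).2 c))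
    · have c' := fewStrips_map Nat.unpair c
      rw [List.map_map, List.map_map, show Nat.unpair ∘ nm = id from funext hg, List.map_id,
        List.map_id] at c'
      refine (clq_iff G k).1 (clq_of_few (fun a ha => ?_) c')
      rw [← Bool.not_eq_true]
      exact fun e => ((entry_adjRows G ⟨a, ha⟩ ⟨a, ha⟩).1 e).ne rfl

end Pool.Agent.MP_eb915b_lc.Few
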