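import Mathlib

set_option autoImplicit false

namespace Pool.Agent.MP_eb915b_lc

/-- There are subsequences of `G₁` and `G₂` of length at least `m` with a common partition into at
most `t` strips, each of length at least two. -/
def FewStrips {α : Type} (G₁ G₂ : List α) (m t : ℕ) : Prop :=
  ∃ P₁ P₂ : List (List α), P₁.flatten.Sublist G₁ ∧ P₂.flatten.Sublist G₂ ∧ P₁.Perm P₂ ∧
    (∀ s ∈ P₁, 2 ≤ s.length) ∧ m ≤ P₁.flatten.length ∧ P₁.length ≤ t

end Pool.Agent.MP_eb915b_lc
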